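import Pool.Agent.R341.Uni8

set_option autoImplicit false

namespace Pool.Agent.Results.MP_2c7009_nt.AccumulationPoints

open Pool.Agent.R341.Uni

/-- The level set at `q` of the smallest univoque base `q_s(x) = inf U(x)`. -/
def L (q : ℝ) : Set ℝ := {x | 0 < x ∧ sInf (Ux x) = q}

/-- De Vries–Komornik numbers: `q` is in `U = U(1)` and is the right endpoint of an open interval
`(q₀, q)` which does not meet the closure of `U` and whose left endpoint is in the closure of `U`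
but not in `U`. -/
def IsDVK (q : ℝ) : Prop := q ∈ Ux 1 ∧ ∃ q₀ : ℝ, q₀ < q ∧ q₀ ∈ closure (Ux 1) \ Ux 1 ∧
  Set.Ioo q₀ q ∩ closure (Ux 1) = ∅

/-- For every de Vries–Komornik number below the tribonacci number `Q₃` the level set has
uncountably many (in particular infinitely many) accumulation points. -/
theorem result (Q₃ : ℝ) (h0 : 0 < Q₃) (h1 : 1 / Q₃ + 1 / Q₃ ^ 2 + 1 / Q₃ ^ 3 = 1) (q : ℝ)
    (hq : IsDVK q) (hlt : q < Q₃) :
    ¬ {y : ℝ | ∀ ε : ℝ, 0 < ε → (Set.Ioo (y - ε) (y + ε) ∩ L q).Infinite}.Countable := by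
  obtain ⟨hqU, q₀, hq₀, _, hiso⟩ := hq
  have hiso' : Set.Ioo q₀ q ∩ Ux 1 = ∅ := by
    rw [← Set.subset_empty_iff, ← hiso]
    exact Set.inter_subset_inter_right _ subset_closure
  obtain ⟨t, ht, hα, hunb⟩ := unb_of_isolated hq₀ hqU hiso'
  obtain ⟨QK, hK1, hK2, hK3⟩ := exists_KL
  have hK := (KL_least (by linarith) (by linarith) hK3).2 hqU
  have hQ3 : Q₃ < 1.85 := by
    by_contra hc
    push Not at hc
    have a1 : 1 / Q₃ ≤ 1 / 1.85 := one_div_le_one_div_of_le (by norm_num) hc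
    have a2 : 1 / Q₃ ^ 2 ≤ 1 / 1.85 ^ 2 :=
      one_div_le_one_div_of_le (by norm_num) (pow_le_pow_left₀ (by norm_num) hc 2)
    have a3 : 1 / Q₃ ^ 3 ≤ 1 / 1.85 ^ 3 :=
      one_div_le_one_div_of_le (by norm_num) (pow_le_pow_left₀ (by norm_num) hc 3)
    have a4 : (1 : ℝ) / 1.85 + 1 / 1.85 ^ 2 + 1 / 1.85 ^ 3 < 1 := by norm_num
    linarith
  have h2 := level_uncountable ht hunb (by linarith) (by linarith) hα
  refine uncountable_acc fun h3 => h2 (h3.mono fun x hx => ?_)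
  exact ⟨hx.1, hx.2.csInf_eq⟩

end Pool.Agent.Results.MP_2c7009_nt.AccumulationPoints
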